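import Pool.Agent.H.MP_78a38c_al.A

set_option autoImplicit false

namespace Pool.Agent.HShift

open Finset MvPolynomial Module

variable {n : ℕ} {K : Type} [Field K]

/-- The multigraded Betti number: the dimension of the `i`-th Koszul homology of `J`, that is of
`Tor_i(K, J)`, in multidegree `a`. -/
noncomputable def betti (J : Ideal (MvPolynomial (Fin n) K)) (i : ℕ) (a : Fin n →₀ ℕ) : ℕ :=
  finrank K (Submodule.span K {c | IsChain J i a c ∧ kd c = 0} ⧸
    (Submodule.span K (kd '' {w | IsChain J (i + 1) a w})).submoduleOf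
      (Submodule.span K {c | IsChain J i a c ∧ kd c = 0}))

/-- The ideal generated by the monomials with exponents in `B`. -/
noncomputable def mi (K : Type) [Field K] (B : Set (Fin n →₀ ℕ)) :
    Ideal (MvPolynomial (Fin n) K) :=
  Ideal.span ((fun a => monomial a (1 : K)) '' B)

lemma bd_bd (c : Finset (Fin n) → K) : bd (bd c) = 0 := by
  have e : ∀ (c : Finset (Fin n) → MvPolynomial (Fin n) K),
      (fun G => eval 1 (kd c G)) = bd fun F => eval 1 (c F) := fun c => by
    ext G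
    simp [kd, bd, sg]
  have := e (kd fun F => C (c F))
  simp only [e, kd_kd, map_zero, eval_C] at this
  exact this.symm

def Down (Δ : Finset (Fin n) → Prop) : Prop := ∀ F G, Δ G → F ⊆ G → Δ F

def Van (K : Type) [Field K] (Δ : Finset (Fin n) → Prop) (i : ℕ) : Prop :=
  ∀ c : Finset (Fin n) → K, Supp Δ i c → bd c = 0 → ∃ w, Supp Δ (i + 1) w ∧ bd w = c

variable {Δ : Finset (Fin n) → Prop} {i : ℕ}

lemma Supp.bd {c : Finset (Fin n) → K} (hΔ : Down Δ) (h : Supp Δ (i + 1) c) :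
    Supp Δ i (bd c) := fun G hG => by
  obtain ⟨j, hj, h1⟩ := exists_ne_zero_of_sum_ne_zero hG
  have := h _ (right_ne_zero_of_mul h1)
  rw [card_insert_of_notMem (mem_compl.1 hj)] at this
  exact ⟨hΔ _ _ this.1 (subset_insert _ _), by omega⟩

lemma van_cone (v : Fin n) (h : ∀ F, v ∉ F → Δ F → Δ (insert v F)) : Van K Δ i :=
  fun c hc h0 => ⟨cone v c, hc.cone fun F h1 h2 _ => h F h1 h2, by
    rw [bd_cone, h0, cone_zero, sub_zero]⟩

lemma van_small (h : ∀ F, Δ F → #F ≠ i) : Van K Δ i := fun _ hc _ =>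
  ⟨0, fun _ h => absurd rfl h, bd_zero.trans (funext fun F => by_contra fun h1 =>
    h F (hc F (Ne.symm h1)).1 (hc F (Ne.symm h1)).2)⟩

lemma van_ld (hΔ : Down Δ) (v : Fin n) (hd : Van K (fun F => Δ F ∧ v ∉ F) i)
    (hl : ∀ j, i = j + 1 → Van K (fun F => Δ (insert v F) ∧ v ∉ F) j) : Van K Δ i := by
  intro c hc h0
  let c1 : Finset (Fin n) → K := fun G => if v ∈ G then 0 else sg K v G * c (insert v G)
  have e0 : ∀ G, v ∈ G → (c - cone v c1) G = 0 := fun G hG => by
    simp only [c1, Pi.sub_apply, cone, if_pos hG, if_neg (notMem_erase v G), insert_erase hG]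
    rw [← mul_assoc, sg_sq, one_mul, sub_self]
  have e1 : bd c1 = 0 := by
    ext G
    by_cases hG : v ∈ G
    · exact sum_eq_zero fun j _ => by simp [c1, hG]
    · have h7 : bd (c - cone v c1) (insert v G) = 0 :=
        sum_eq_zero fun j _ => by rw [e0 _ (by simp), mul_zero]
      rw [bd_sub, bd_cone, h0] at h7
      simpa [c1, cone_insert hG, sg_ne] using h7
  have s1 : ∀ G, c1 G ≠ 0 → (Δ (insert v G) ∧ v ∉ G) ∧ #G + 1 = i := fun G hG => by
    have h7 : v ∉ G := fun h => hG (if_pos h)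
    simp only [c1, if_neg h7] at hG
    have := hc _ (right_ne_zero_of_mul hG)
    exact ⟨⟨this.1, h7⟩, by rw [← this.2, card_insert_of_notMem h7]⟩
  obtain ⟨w1, h7, h8⟩ : ∃ w1, Supp (fun F => Δ (insert v F) ∧ v ∉ F) i w1 ∧ bd w1 = c1 := by
    rcases i with _ | t
    · exact ⟨0, fun _ h => absurd rfl h, bd_zero.trans (funext fun G =>
        by_contra fun h => by simpa using (s1 G (Ne.symm h)).2)⟩
    · exact hl t rfl c1 (fun G hG => ⟨(s1 G hG).1, by simpa using (s1 G hG).2⟩) e1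
  obtain ⟨w0, h9, h10⟩ := hd (c - cone v c1 - (0 - w1))
    (Supp.sub (fun G hG => by
      have h9 : v ∉ G := fun h => hG (e0 G h)
      have := hc G (by simpa [cone, h9] using hG)
      exact ⟨⟨this.1, h9⟩, this.2⟩) (Supp.sub (fun _ h => absurd rfl h) fun G hG =>
        ⟨⟨hΔ _ _ (h7 G hG).1.1 (subset_insert _ _), (h7 G hG).1.2⟩, (h7 G hG).2⟩))
    (by simp only [bd_sub, bd_cone, h0, e1, h8, bd_zero, cone_zero]; ring)
  refine ⟨w0 - cone v w1, Supp.sub (fun G hG => ⟨(h9 G hG).1.1, (h9 G hG).2⟩)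
    (h7.cone fun F _ h _ => h.1), ?_⟩
  rw [bd_sub, bd_cone, h8, h10]
  ring

def Ch (K : Type) [Field K] (Δ : Finset (Fin n) → Prop) (i : ℕ) :
    Submodule K (Finset (Fin n) → K) :=
  ⨅ F ∈ {F | Δ F ∧ #F = i}ᶜ, LinearMap.ker (LinearMap.proj F)

lemma mem_Ch {c : Finset (Fin n) → K} : c ∈ Ch K Δ i ↔ Supp Δ i c := by
  simp only [Ch, Submodule.mem_iInf, LinearMap.mem_ker, LinearMap.proj_apply]
  exact forall_congr' fun F => not_imp_comm

lemma rank_Ch : finrank K (Ch K Δ i) = Nat.card {F | Δ F ∧ #F = i} := by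
  classical
  rw [Ch, (LinearMap.iInfKerProjEquiv K (fun _ => K) disjoint_compl_right (by simp)).finrank_eq,
    finrank_fintype_fun_eq_card, Nat.card_eq_fintype_card]

def bdL : (Finset (Fin n) → K) →ₗ[K] Finset (Fin n) → K where
  toFun := bd
  map_add' c d := by
    ext G
    simp [bd, mul_add, sum_add_distrib]
  map_smul' t c := by
    ext G
    simp [bd, mul_sum, mul_left_comm]

noncomputable def rk (K : Type) [Field K] (Δ : Finset (Fin n) → Prop) (i : ℕ) : ℕ :=
  finrank K ((Ch K Δ i).map bdL)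

lemma rk_add : rk K Δ i + finrank K (Ch K Δ i ⊓ LinearMap.ker bdL :) =
    Nat.card {F | Δ F ∧ #F = i} := by
  rw [← rank_Ch (K := K), ← (bdL.domRestrict (Ch K Δ i)).finrank_range_add_finrank_ker,
    LinearMap.range_domRestrict, LinearMap.ker_domRestrict, ← Submodule.map_comap_subtype,
    Submodule.finrank_map_subtype_eq, rk]

lemma bd_le (h : Down Δ) : (Ch K Δ (i + 1)).map bdL ≤ Ch K Δ i ⊓ LinearMap.ker bdL := by
  rintro _ ⟨w, hw, rfl⟩
  exact ⟨mem_Ch.2 ((mem_Ch.1 hw).bd h), bd_bd w⟩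

lemma van_iff (h : Down Δ) :
    Van K Δ i ↔ rk K Δ i + rk K Δ (i + 1) = Nat.card {F | Δ F ∧ #F = i} := by
  rw [← rk_add (K := K), add_right_inj, rk]
  refine ⟨fun h1 => congrArg (fun p : Submodule K _ => finrank K p)
    ((bd_le h).antisymm fun c hc => ?_), fun h1 c h2 h3 => ?_⟩
  · obtain ⟨w, h2, h3⟩ := h1 c (mem_Ch.1 hc.1) hc.2
    exact ⟨w, mem_Ch.2 h2, h3⟩
  · obtain ⟨w, h4, h5⟩ := (Submodule.eq_of_le_of_finrank_eq (bd_le h) h1).ge ⟨mem_Ch.2 h2, h3⟩
    exact ⟨w, mem_Ch.1 h4, h5⟩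

lemma rk_zero (h : i = 0 ∨ n < i) : rk K Δ i = 0 := by
  rw [rk, Submodule.finrank_eq_zero, Submodule.eq_bot_iff]
  rintro _ ⟨w, hw, rfl⟩
  refine funext fun G => sum_eq_zero fun j hj => mul_eq_zero_of_right _ (by_contra fun h1 => ?_)
  have h2 := (mem_Ch.1 hw _ h1).2
  have := card_le_univ (insert j G)
  have := card_pos.2 (insert_nonempty j G)
  rw [Fintype.card_fin] at *
  omega

/-- Homology concentrated in one degree over every field. -/
def Conc (Δ : Finset (Fin n) → Prop) : Prop :=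
  ∃ t, ∀ (K : Type) [Field K] i, i ≠ t → Van K Δ i

lemma Conc.rk (h : Conc Δ) (hΔ : Down Δ) (K' : Type) [Field K'] (i : ℕ) :
    rk K Δ i = rk K' Δ i := by
  obtain ⟨t, h⟩ := h
  have e : ∀ i, i ≠ t → HShift.rk K Δ i + HShift.rk K Δ (i + 1) =
      HShift.rk K' Δ i + HShift.rk K' Δ (i + 1) := fun i hi =>
    ((van_iff hΔ).1 (h K i hi)).trans ((van_iff hΔ).1 (h K' i hi)).symm
  rcases le_or_gt i t with h1 | h1
  · induction i with
    | zero => rw [rk_zero (.inl rfl), rk_zero (.inl rfl)]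
    | succ i ih =>
      have := e i (by omega)
      have := ih (by omega)
      omega
  · induction hm : n + 1 - i generalizing i with
    | zero => rw [rk_zero (.inr (by omega)), rk_zero (.inr (by omega))]
    | succ m ih =>
      have := e i (by omega)
      have := ih (i + 1) (by omega) (by omega)
      omega

variable {B : Set (Fin n →₀ ℕ)} {a : Fin n →₀ ℕ}

lemma Dl_down : Down (Dl B a) := fun F G ⟨x, hx, h⟩ h1 => ⟨x, hx, fun j => by
  have := h j
  have := @h1 j
  split_ifs at * <;> first | omega | tauto⟩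

noncomputable def PhL (a : Fin n →₀ ℕ) :
    (Finset (Fin n) → K) →ₗ[K] Finset (Fin n) → MvPolynomial (Fin n) K :=
  LinearMap.pi fun F => monomial (a - ee F) ∘ₗ LinearMap.proj F

lemma betti_add : betti (mi K B) i a + (rk K (Dl B a) i + rk K (Dl B a) (i + 1)) =
    Nat.card {F | Dl B a F ∧ #F = i} := by
  have e0 : Ph a (0 : Finset (Fin n) → K) = 0 := funext fun F => by simp [Ph]
  have e1 : {c | IsChain (mi K B) i a c ∧ kd c = 0} =
      (Ch K (Dl B a) i ⊓ LinearMap.ker bdL).map (PhL a) := Set.ext fun c => by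
    constructor
    · rintro ⟨h1, h2⟩
      obtain ⟨d, h4, rfl⟩ := chain_iff.1 h1
      exact ⟨d, ⟨mem_Ch.2 h4, Ph_inj (by rw [e0, ← h2, kd_Ph h4]; rfl)⟩, rfl⟩
    · rintro ⟨d, ⟨h1, h2⟩, rfl⟩
      exact ⟨chain_iff.2 ⟨d, mem_Ch.1 h1, rfl⟩, (kd_Ph (mem_Ch.1 h1)).trans
        ((congrArg _ h2).trans e0)⟩
  have e2 : kd '' {w | IsChain (mi K B) (i + 1) a w} =
      ((Ch K (Dl B a) (i + 1)).map bdL).map (PhL a) := Set.ext fun c => by
    constructor
    · rintro ⟨_, h1, rfl⟩
      obtain ⟨d, h4, rfl⟩ := chain_iff.1 h1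
      exact ⟨_, ⟨d, mem_Ch.2 h4, rfl⟩, (kd_Ph h4).symm⟩
    · rintro ⟨_, ⟨d, h1, rfl⟩, rfl⟩
      exact ⟨_, chain_iff.2 ⟨d, mem_Ch.1 h1, rfl⟩, kd_Ph (mem_Ch.1 h1)⟩
  have e3 : ∀ p : Submodule K (Finset (Fin n) → K), finrank K (p.map (PhL a)) = finrank K p :=
    fun p => (Submodule.equivMapOfInjective _ (fun _ _ h => Ph_inj h) p).finrank_eq.symm
  rw [betti, e1, e2, Submodule.span_eq, Submodule.span_eq, ← rk_add (K := K), add_left_comm,
    add_right_inj, ← e3 (_ ⊓ _), rk, ← e3 (Submodule.map _ _),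
    ← (Submodule.submoduleOfEquivOfLe (Submodule.map_mono (bd_le Dl_down))).finrank_eq,
    Submodule.finrank_quotient_add_finrank]

lemma betti_zero : betti (mi K B) i a = 0 ↔ Van K (Dl B a) i := by
  rw [van_iff Dl_down, ← betti_add (K := K), right_eq_add]

lemma Conc.betti (h : Conc (Dl B a)) (K' : Type) [Field K'] :
    betti (mi K B) i a = betti (mi K' B) i a := by
  have := betti_add (K := K) (B := B) (a := a) (i := i)
  rw [h.rk Dl_down K' i, h.rk Dl_down K' (i + 1), ← betti_add (K := K')] at this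
  omega

lemma conc_cone (v : Fin n) (h : ∀ F, v ∉ F → Δ F → Δ (insert v F)) : Conc Δ :=
  ⟨0, fun _ _ _ _ => van_cone v h⟩

lemma conc_ld (hΔ : Down Δ) (v u : Fin n) (h : ∀ F, u ∉ F → v ∉ F → Δ F → Δ (insert u F))
    (hu : v ≠ u) (hl : Conc fun F => Δ (insert v F) ∧ v ∉ F) : Conc Δ := by
  obtain ⟨t, hl⟩ := hl
  exact ⟨t + 1, fun K _ i hi => van_ld hΔ v (van_cone u fun F h1 h2 =>
    ⟨h F h1 h2.2 h2.1, by simp [hu, h2.2]⟩) fun j hj => hl K j (by omega)⟩

/-- A checker for the vanishing of homology of the complex generated by a list of faces. -/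
def van : ℕ → List (Finset (Fin n)) → ℕ → Bool
  | 0, _, _ => false
  | f + 1, L, i => L.all (#· < i) ||
    (List.finRange n).any (fun v => L.all fun G => L.any (insert v G ⊆ ·)) ||
    (List.finRange n).any fun v => L.any (v ∈ ·) &&
      (i == 0 || van f ((L.filter (v ∈ ·)).map (·.erase v)) (i - 1)) && van f (L.map (·.erase v)) i

lemma van_of : ∀ (f : ℕ) (L : List (Finset (Fin n))) (i : ℕ), van f L i = true →
    Van K (fun F => ∃ G ∈ L, F ⊆ G) i
  | 0, _, _, h => by simp [van] at h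
  | f + 1, L, i, h => by
    simp only [van, Bool.or_eq_true, List.all_eq_true, List.any_eq_true, decide_eq_true_eq,
      Bool.and_eq_true, beq_iff_eq] at h
    rcases h with (h | ⟨v, -, h⟩) | ⟨v, -, ⟨-, h1⟩, h2⟩
    · exact van_small fun F ⟨G, h1, h2⟩ => ((card_le_card h2).trans_lt (h G h1)).ne
    · refine van_cone v fun F _ ⟨G, h1, h2⟩ => ?_
      obtain ⟨H, h3, h4⟩ := h G h1
      exact ⟨H, h3, (insert_subset_insert _ h2).trans h4⟩
    · refine van_ld (fun F G ⟨H, h1, h2⟩ h => ⟨H, h1, h.trans h2⟩) v ?_ fun j hj => ?_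
      · convert van_of f _ _ h2 using 2 with F
        simp [subset_erase, ← and_assoc]
      · subst hj
        convert van_of f _ j (h1.resolve_left (by simp)) using 2 with F
        simp only [List.mem_map, List.mem_filter, decide_eq_true_eq, exists_exists_and_eq_and,
          subset_erase, insert_subset_iff]
        tauto

end Pool.Agent.HShift
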