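import Pool.Agent.H.MP_8a71fe_al.A

set_option autoImplicit false

namespace Pool.Agent.CharDep

open Finset MvPolynomial Pool.Agent.HShift

def J1 : List (Finset (Fin 8)) :=
  [{2, 3, 4}, {2, 4, 5}, {2, 5, 6}, {2, 6, 7}, {2, 3, 7}, {3, 4, 6}, {4, 5, 7}, {3, 5, 6}, {3, 5, 7}]

def mm : Finset (Fin 8) := {4, 6, 7}

def ZZ : Finset (Fin 8) := {2, 3, 4, 5, 6, 7}

lemma chk : ∀ W ∈ ZZ.powerset, ∀ i < 4, i ≠ min (#W - 3) 2 →
    van 7 ((J1.filter (· ⊆ W)).map (W \ ·)) i = true := by decide +kernel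

noncomputable def gen (d j : ℕ) (g : Finset (Fin 8)) : Fin 8 →₀ ℕ :=
  Finsupp.single 0 j + Finsupp.single 1 (d + 1 - j) + ee g

def BB (d : ℕ) : Set (Fin 8 →₀ ℕ) :=
  {gen d 0 ∅, gen d 2 ∅, gen d d mm} ∪ gen d 1 '' {g | g ∈ J1}

def par (t : ℕ) (g : Finset (Fin 8)) : Prop := t % 2 = 0 ∧ g = ∅ ∨ t % 2 = 1 ∧ g ∈ J1

def Z (a e : Fin 8 → ℕ) (s : ℕ) (g : Finset (Fin 8)) : Prop :=
  ∀ j ∈ ZZ, (if j ∈ mm then s else 0) + (if j ∈ g then 1 else 0) + e j ≤ a j

def Q (d l : ℕ) (a e : Fin 8 → ℕ) : Prop :=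
  ∃ s t g, t + 2 * s ≤ 2 * l ∧ par t g ∧ s * d + t + e 0 ≤ a 0 ∧
    (d + 1) * l + e 1 ≤ a 1 + (s * d + t) ∧ Z a e s g

lemma sub_Z : ∀ g ∈ mm :: J1, g ⊆ ZZ ∧ g.Nonempty ∧ 0 ∉ g ∧ 1 ∉ g ∧ #g = 3 := by
  decide +kernel

lemma gen0 {d j : ℕ} {g : Finset (Fin 8)} (h : 0 ∉ g) : gen d j g 0 = j := by
  simp [gen, ee_apply, h]

lemma gen1 {d j : ℕ} {g : Finset (Fin 8)} (h : 1 ∉ g) : gen d j g 1 = d + 1 - j := by
  simp [gen, ee_apply, h]

lemma genZ {d j : ℕ} {g : Finset (Fin 8)} {i : Fin 8} (h : i ∈ ZZ) :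
    gen d j g i = if i ∈ g then 1 else 0 := by
  have : i ≠ 0 ∧ i ≠ 1 := by revert i; decide
  simp [gen, ee_apply, this]

lemma sm_iff {d : ℕ} (hd : 1 ≤ d) (a : Fin 8 → ℕ) (l : ℕ) : ∀ e : Fin 8 → ℕ,
    (∃ x ∈ Sm (BB d) l, ∀ j, x j + e j ≤ a j) ↔ Q d l a e := by
  have hm := sub_Z mm (by simp)
  induction l with
  | zero =>
    intro e
    constructor
    · rintro ⟨_, ⟨b, -, rfl⟩, h⟩
      simp only [univ_eq_empty, sum_empty, Finsupp.coe_zero, Pi.zero_apply, zero_add] at h
      exact ⟨0, 0, ∅, le_rfl, .inl ⟨rfl, rfl⟩, by simpa using h 0, by simpa using h 1,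
        fun j _ => by simpa using h j⟩
    · rintro ⟨s, t, g, h1, h2, h3, h4, h5⟩
      refine ⟨0, ⟨fun i => i.elim0, fun i => i.elim0, rfl⟩, fun j => ?_⟩
      obtain rfl : s = 0 := by omega
      by_cases h : j ∈ ZZ
      · have := h5 j h
        simp only [Finsupp.coe_zero, Pi.zero_apply]
        omega
      · obtain rfl | rfl : j = 0 ∨ j = 1 := by revert j; decide
        all_goals simp; omega
  | succ l ih =>
    intro e
    have e1 : (∃ x ∈ Sm (BB d) (l + 1), ∀ j, x j + e j ≤ a j) ↔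
        ∃ b ∈ BB d, Q d l a fun j => b j + e j := by
      simp only [← ih]
      constructor
      · rintro ⟨_, ⟨b, h, rfl⟩, h1⟩
        exact ⟨b 0, h 0, _, ⟨fun i => b i.succ, fun i => h _, rfl⟩, fun j => by
          have := h1 j
          rw [Fin.sum_univ_succ, Finsupp.add_apply] at this
          beta_reduce
          omega⟩
      · rintro ⟨b, h, _, ⟨c, h1, rfl⟩, h2⟩
        exact ⟨_, ⟨Fin.cons b c, Fin.cases h h1, rfl⟩, fun j => by
          have := h2 j
          simp only [Fin.sum_univ_succ, Finsupp.add_apply, Fin.cons_zero, Fin.cons_succ]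
          omega⟩
    rw [e1]
    constructor
    · rintro ⟨b, hb, s, t, g, h1, h2, h3, h4, h5⟩
      beta_reduce at h3 h4
      rcases hb with (rfl | rfl | rfl) | ⟨g', hg, rfl⟩
      · rw [gen0 (notMem_empty _)] at h3
        rw [gen1 (notMem_empty _)] at h4
        exact ⟨s, t, g, by omega, h2, by omega, by rw [mul_add_one]; omega,
          fun j hj => (h5 j hj).trans' (by beta_reduce; omega)⟩
      · rw [gen0 (notMem_empty _)] at h3
        rw [gen1 (notMem_empty _)] at h4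
        exact ⟨s, t + 2, g, by omega, by simpa [par] using h2, by omega,
          by rw [mul_add_one]; omega, fun j hj => (h5 j hj).trans' (by beta_reduce; omega)⟩
      · rw [gen0 hm.2.2.1] at h3
        rw [gen1 hm.2.2.2.1] at h4
        exact ⟨s + 1, t, g, by omega, h2, by rw [add_one_mul]; omega,
          by rw [mul_add_one, add_one_mul s]; omega, fun j hj => (h5 j hj).trans' (by
            simp only [genZ hj]
            split_ifs <;> omega)⟩
      · have h6 := sub_Z g' (List.mem_cons_of_mem _ hg)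
        rw [gen0 h6.2.2.1] at h3
        rw [gen1 h6.2.2.2.1] at h4
        rcases h2 with ⟨h2, rfl⟩ | ⟨h2, -⟩
        · exact ⟨s, t + 1, g', by omega, .inr ⟨by omega, hg⟩, by omega,
            by rw [mul_add_one]; omega, fun j hj => (h5 j hj).trans' (by
              simp only [genZ hj]
              omega)⟩
        · exact ⟨s, t + 1, ∅, by omega, .inl ⟨by omega, rfl⟩, by omega,
            by rw [mul_add_one]; omega, fun j hj => (h5 j hj).trans' (by simp; omega)⟩
    · rintro ⟨s, t, g, h1, h2, h3, h4, h5⟩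
      rw [mul_add_one] at h4
      rcases s with _ | s
      · rcases h2 with ⟨h2, rfl⟩ | ⟨h2, hg⟩
        · rcases t with _ | _ | t
          · exact ⟨_, .inl (.inl rfl), 0, 0, ∅, by omega, .inl ⟨rfl, rfl⟩, by simpa [gen0] using h3,
              by simp only [gen1 (notMem_empty _)]; omega, fun j hj => by
                simpa [genZ hj] using h5 j hj⟩
          · omega
          · exact ⟨_, .inl (.inr (.inl rfl)), 0, t, ∅, by omega, .inl ⟨by omega, rfl⟩,
              by simp only [gen0 (notMem_empty _)]; omega,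
              by simp only [gen1 (notMem_empty _)]; omega, fun j hj => by
                simpa [genZ hj] using h5 j hj⟩
        · have h6 := sub_Z g (List.mem_cons_of_mem _ hg)
          exact ⟨_, .inr ⟨g, hg, rfl⟩, 0, t - 1, ∅, by omega, .inl ⟨by omega, rfl⟩,
            by simp only [gen0 h6.2.2.1]; omega, by simp only [gen1 h6.2.2.2.1]; omega,
            fun j hj => by simpa [genZ hj] using h5 j hj⟩
      · rw [add_one_mul s] at h3 h4
        exact ⟨_, .inl (.inr (.inr rfl)), s, t, g, by omega, h2, by simp only [gen0 hm.2.2.1]; omega,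
          by simp only [gen1 hm.2.2.2.1]; omega, fun j hj => (h5 j hj).trans' (by
            simp only [genZ hj]
            split_ifs <;> omega)⟩

def ch (F : Finset (Fin 8)) (j : Fin 8) : ℕ := if j ∈ F then 1 else 0

lemma dl_eq {d : ℕ} (hd : 1 ≤ d) (a : Fin 8 →₀ ℕ) (l : ℕ) :
    Dl (Sm (BB d) l) a = fun F => Q d l a (ch F) :=
  funext fun F => propext (sm_iff hd a l (ch F))

end Pool.Agent.CharDep
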