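import Pool.Agent.H.MP_8a71fe_al.B

set_option autoImplicit false

namespace Pool.Agent.CharDep

open Finset MvPolynomial Pool.Agent.HShift

variable {a : Fin 8 → ℕ} {s d l : ℕ} {g F : Finset (Fin 8)}

lemma ch_ins (v j : Fin 8) : ch (insert v F) j = if j = v then 1 else ch F j := by
  by_cases h : j = v <;> simp [ch, h]

lemma Z_ins {v : Fin 8} (h : v = 0 ∨ v = 1) : Z a (ch (insert v F)) s g ↔ Z a (ch F) s g :=
  forall₂_congr fun j hj => by
    rw [ch_ins, if_neg (c := j = v) (by rintro rfl; revert j; decide)]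

lemma Z.mono {e : Fin 8 → ℕ} {s' : ℕ} (h : Z a e s g) (h' : s' ≤ s) : Z a e s' ∅ :=
  fun j hj => (h j hj).trans' (by simp only [notMem_empty, if_false]; split_ifs <;> omega)

lemma Z.cone {v : Fin 8} (h : Z a (ch F) s g)
    (h' : (if v ∈ mm then s else 0) + (if v ∈ g then 1 else 0) + 1 ≤ a v) :
    Z a (ch (insert v F)) s g := fun j hj => by
  rw [ch_ins]
  by_cases h1 : j = v
  · rwa [if_pos h1, h1]
  · exact if_neg h1 ▸ h j hj

lemma mem_ZZ : ∀ j : Fin 8, j ∈ ZZ ↔ j ≠ 0 ∧ j ≠ 1 := by decide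

lemma concO : Conc fun F => (∃ g ∈ J1, Z a (ch F) s g) ∧ 0 ∉ F ∧ 1 ∉ F := by
  by_cases h : ∃ j ∈ ZZ, (if j ∈ mm then s else 0) + 2 ≤ a j
  · obtain ⟨j, h1, h⟩ := h
    exact conc_cone j fun F _ ⟨⟨g, h2, h3⟩, h4⟩ => ⟨⟨g, h2, h3.cone (by split_ifs at * <;> omega)⟩,
      by simpa [h4, eq_comm] using (mem_ZZ j).1 h1⟩
  by_cases h' : ∃ j ∈ ZZ, a j < if j ∈ mm then s else 0
  · obtain ⟨j, h1, h'⟩ := h'
    exact conc_cone 0 fun F _ ⟨⟨g, _, h3⟩, _⟩ => absurd (h3 j h1) (by omega)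
  push Not at h h'
  let W := {j ∈ ZZ | (if j ∈ mm then s else 0) + 1 ≤ a j}
  have e : (fun F => (∃ g ∈ J1, Z a (ch F) s g) ∧ 0 ∉ F ∧ 1 ∉ F) =
      fun F => ∃ G ∈ (J1.filter (· ⊆ W)).map (W \ ·), F ⊆ G := funext fun F => propext <| by
    simp only [List.mem_map, List.mem_filter, decide_eq_true_eq, exists_exists_and_eq_and]
    constructor
    · rintro ⟨⟨g, h1, h2⟩, h3, h4⟩
      have h5 := (sub_Z g (List.mem_cons_of_mem _ h1)).1
      refine ⟨g, ⟨h1, fun j hj => mem_filter.2 ⟨h5 hj, ?_⟩⟩, fun j hj => ?_⟩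
      · have := h2 j (h5 hj)
        rw [if_pos hj] at this
        omega
      · have h6 : j ∈ ZZ := (mem_ZZ j).2 ⟨fun h => h3 (h ▸ hj), fun h => h4 (h ▸ hj)⟩
        have := h2 j h6
        have := h j h6
        rw [ch, if_pos hj] at *
        exact mem_sdiff.2 ⟨mem_filter.2 ⟨h6, by omega⟩, fun h7 => by
          rw [if_pos h7] at *
          omega⟩
    · rintro ⟨g, ⟨h1, h2⟩, h3⟩
      have h4 : ∀ j ∈ F, j ≠ 0 ∧ j ≠ 1 := fun j hj =>
        (mem_ZZ j).1 (mem_filter.1 (mem_sdiff.1 (h3 hj)).1).1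
      refine ⟨⟨g, h1, fun j hj => ?_⟩, fun h => (h4 _ h).1 rfl, fun h => (h4 _ h).2 rfl⟩
      have := h' j hj
      have h5 := @h2 j
      have h6 := @h3 j
      simp only [W, mem_sdiff, mem_filter] at h5 h6
      rw [ch]
      by_cases h7 : j ∈ g <;> by_cases h8 : j ∈ F <;> simp_all
  rw [e]
  refine ⟨min (#W - 3) 2, fun K _ i hi => ?_⟩
  rcases lt_or_ge i 4 with h1 | h1
  · exact van_of _ _ _ (chk W (mem_powerset.2 (filter_subset _ _)) i h1 hi)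
  · refine van_small fun F ⟨G, h2, h3⟩ => ?_
    simp only [List.mem_map, List.mem_filter, decide_eq_true_eq] at h2
    obtain ⟨g, ⟨h2, h4⟩, rfl⟩ := h2
    have := card_le_card h3
    have : #W ≤ 6 := card_le_card (filter_subset _ ZZ)
    rw [card_sdiff_of_subset h4, (sub_Z g (List.mem_cons_of_mem _ h2)).2.2.2.2] at *
    omega

lemma conc_emp {Δ : Finset (Fin 8) → Prop} (h : ∀ F, Δ F → F = ∅) : Conc Δ :=
  ⟨0, fun _ _ _ hi => van_small fun F h1 => by simpa [h F h1] using hi.symm⟩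

lemma concP (t : ℕ) : Conc fun F => (∃ g, par t g ∧ Z a (ch F) s g) ∧ 0 ∉ F ∧ 1 ∉ F := by
  rcases t.mod_two_eq_zero_or_one with h | h <;> simp only [par, h]
  · by_cases h : ∃ j ∈ ZZ, (if j ∈ mm then s else 0) + 1 ≤ a j
    · obtain ⟨j, h1, h⟩ := h
      exact conc_cone j fun F _ ⟨⟨g, h2, h3⟩, h4⟩ => ⟨⟨g, h2, h3.cone (by simp_all)⟩,
        by simpa [h4, eq_comm] using (mem_ZZ j).1 h1⟩
    · refine conc_emp fun F ⟨⟨g, _, h3⟩, h4⟩ => eq_empty_of_forall_notMem fun j hj => ?_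
      have h6 : j ∈ ZZ := (mem_ZZ j).2 ⟨fun h => h4.1 (h ▸ hj), fun h => h4.2 (h ▸ hj)⟩
      have := h3 j h6
      rw [ch, if_pos hj] at this
      exact h ⟨j, h6, by omega⟩
  · simpa using concO

lemma Z.down {G : Finset (Fin 8)} (h : Z a (ch G) s g) (h' : F ⊆ G) : Z a (ch F) s g :=
  fun j hj => (h j hj).trans' (by
    have := @h' j
    simp only [ch]
    split_ifs <;> first | omega | tauto)

lemma conc5 : Conc fun F => (0 ∉ F ∧ Z a (ch F) s ∅ ∨ ∃ g ∈ J1, Z a (ch F) s g) ∧ 1 ∉ F := by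
  by_cases h : ∃ j ∈ ZZ, (if j ∈ mm then s else 0) + 1 ≤ a j
  · obtain ⟨j, h1, h⟩ := h
    have h2 := (mem_ZZ j).1 h1
    refine conc_ld (fun F G h3 h4 => ⟨h3.1.imp (fun h => ⟨fun h5 => h.1 (h4 h5), h.2.down h4⟩)
      fun ⟨g, h, h5⟩ => ⟨g, h, h5.down h4⟩, fun h => h3.2 (h4 h)⟩) 0 j
      (fun F _ h3 h4 => ⟨.inl ⟨by simp [h3, h2.1.symm], Z.cone ?_ (by simpa)⟩,
        by simp [h4.2, h2.2.symm]⟩) h2.1.symm ?_
    · exact h4.1.elim (·.2) fun ⟨g, _, h⟩ => h.mono le_rfl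
    · convert concO (a := a) (s := s) using 2 with F
      simp [Z_ins, and_assoc, and_comm]
  · refine conc_emp fun F ⟨h1, h2⟩ => eq_empty_of_forall_notMem fun j hj => ?_
    rcases h1 with ⟨h1, h3⟩ | ⟨g, h1, h3⟩
    · have h6 : j ∈ ZZ := (mem_ZZ j).2 ⟨fun h => h1 (h ▸ hj), fun h => h2 (h ▸ hj)⟩
      have := h3 j h6
      rw [ch, if_pos hj] at this
      exact h ⟨j, h6, by omega⟩
    · obtain ⟨h4, ⟨i, hi⟩, -⟩ := sub_Z g (List.mem_cons_of_mem _ h1)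
      have := h3 i (h4 hi)
      rw [if_pos hi] at this
      exact h ⟨i, h4 hi, by omega⟩

lemma mono {s' : ℕ} (d : ℕ) (h : s < s') : s * d + d ≤ s' * d :=
  add_one_mul s d ▸ Nat.mul_le_mul_right d h

lemma uq {s' t t' : ℕ} (h : s * d + t = s' * d + t') (h1 : t < d) (h2 : t' < d) : s = s' := by
  rcases lt_trichotomy s s' with h3 | h3 | h3
  · have := mono d h3
    omega
  · exact h3
  · have := mono d h3
    omega

lemma coneX (hl : 2 * l < d) (h : ∃ s t, t + 2 * s ≤ 2 * l ∧ t % 2 = 0 ∧ s * d + t < a 0 ∧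
    (d + 1) * l + ch F 1 ≤ a 1 + (s * d + t)) (h' : Q d l a (ch F)) :
    Q d l a (ch (insert 0 F)) := by
  obtain ⟨s, t, h1, h2, h3, h4⟩ := h
  obtain ⟨s', t', g, h5, h6, -, h8, h9⟩ := h'
  rcases le_or_gt s s' with h | h
  · exact ⟨s, t, ∅, h1, .inl ⟨h2, rfl⟩, by rwa [ch_ins, if_pos rfl], by rwa [ch_ins, if_neg (by simp)],
      (Z_ins (.inl rfl)).2 (h9.mono h)⟩
  · have := mono d h
    exact ⟨s', t', g, h5, h6, by rw [ch_ins, if_pos rfl]; omega, by rwa [ch_ins, if_neg (by simp)],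
      (Z_ins (.inl rfl)).2 h9⟩

lemma conc (hl : 2 * l < d) (a : Fin 8 →₀ ℕ) : Conc (Dl (Sm (BB d) l) a) := by
  have hD : Down (Dl (Sm (BB d) l) a) := Dl_down
  rw [dl_eq (by omega)] at hD ⊢
  have c0 : ∀ F j, j ∉ F → ch F j = 0 := fun F j h => if_neg h
  have c1 : ∀ F j, j ∈ F → ch F j = 1 := fun F j h => if_pos h
  by_cases hA : ∃ s t, t + 2 * s ≤ 2 * l ∧ s * d + t = a 0
  swap
  · refine conc_cone 0 fun F _ ⟨s, t, g, h1, h2, h3, h4, h5⟩ => ⟨s, t, g, h1, h2, ?_,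
      by rwa [ch_ins, if_neg (by simp)], (Z_ins (.inl rfl)).2 h5⟩
    have : s * d + t ≠ a 0 := fun h => hA ⟨s, t, h1, h⟩
    rw [ch_ins, if_pos rfl]
    omega
  by_cases hB : ∃ s t, t + 2 * s ≤ 2 * l ∧ (d + 1) * l = a 1 + (s * d + t)
  swap
  · refine conc_cone 1 fun F _ ⟨s, t, g, h1, h2, h3, h4, h5⟩ => ⟨s, t, g, h1, h2,
      by rwa [ch_ins, if_neg (by simp)], ?_, (Z_ins (.inr rfl)).2 h5⟩
    have : (d + 1) * l ≠ a 1 + (s * d + t) := fun h => hB ⟨s, t, h1, h⟩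
    rw [ch_ins, if_pos rfl]
    omega
  obtain ⟨s1, t1, a1, a2⟩ := hA
  obtain ⟨s0, t0, b1, b2⟩ := hB
  by_cases hU : ∃ s t, t + 2 * s ≤ 2 * l ∧ t % 2 = 0 ∧ s * d + t < a 0 ∧
    (d + 1) * l + 0 ≤ a 1 + (s * d + t)
  · refine conc_ld hD 1 0 (fun F _ h h' => coneX hl (by rwa [c0 _ _ h]) h') (by simp) ?_
    by_cases hU' : ∃ s t, t + 2 * s ≤ 2 * l ∧ t % 2 = 0 ∧ s * d + t < a 0 ∧
      (d + 1) * l + 1 ≤ a 1 + (s * d + t)
    · exact conc_cone 0 fun F _ h => ⟨insert_comm _ _ F ▸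
        coneX hl (by rwa [c1 _ _ (mem_insert_self _ _)]) h.1, by simp [h.2]⟩
    push Not at hU'
    by_cases hV : ∃ s t, t + 2 * s ≤ 2 * l ∧ s * d + t < a 0 ∧ (d + 1) * l + 1 ≤ a 1 + (s * d + t)
    · obtain ⟨s, t, h1, h2, h3⟩ := hV
      have h4 := hU' s t h1
      have h5 := hU' s (t - 1) (by omega)
      have h6 := hU' s (t + 1) (by omega)
      convert conc5 (a := a) (s := s) using 2 with F
      refine and_congr_left fun h7 => ⟨fun ⟨s', t', g, h8, h9, h10, h11, h12⟩ => ?_, ?_⟩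
      · rw [ch_ins, if_neg (by simp)] at h10
        rw [ch_ins, if_pos rfl] at h11
        rw [Z_ins (.inr rfl)] at h12
        obtain rfl : s' = s := by
          rcases (by omega : s' * d + t' = s * d + t ∨ s' * d + t' = s * d + (t + 1)) with h | h <;>
            exact uq h (by omega) (by omega)
        rcases h9 with ⟨h9, rfl⟩ | ⟨-, h9⟩
        · exact .inl ⟨fun h => by rw [c1 _ _ h] at h10; omega, h12⟩
        · exact .inr ⟨g, h9, h12⟩
      · rintro (⟨h8, h9⟩ | ⟨g, h8, h9⟩)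
        · exact ⟨s, t + 1, ∅, by omega, .inl ⟨by omega, rfl⟩, by rw [c0 _ _ (by simpa)]; omega,
            by rw [ch_ins, if_pos rfl]; omega, (Z_ins (.inr rfl)).2 h9⟩
        · exact ⟨s, t, g, h1, .inr ⟨by omega, h8⟩, by rw [ch]; split_ifs <;> omega,
            by rwa [ch_ins, if_pos rfl], (Z_ins (.inr rfl)).2 h9⟩
    · push Not at hV
      obtain ⟨s, t, -, -, h1, h2⟩ := hU
      convert concP (a := a) (s := s1) t1 using 2 with F
      rw [← and_assoc]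
      refine and_congr_left fun h7 => ⟨fun ⟨s', t', g, h8, h9, h10, h11, h12⟩ => ?_,
        fun ⟨⟨g, h8, h9⟩, h10⟩ => ⟨s1, t1, g, a1, h8, by rw [c0 _ _ (by simpa)]; omega,
          by rw [ch_ins, if_pos rfl]; omega, (Z_ins (.inr rfl)).2 h9⟩⟩
      rw [ch_ins, if_neg (by simp)] at h10
      rw [ch_ins, if_pos rfl] at h11
      have := hV s' t' h8
      obtain rfl : s' = s1 := uq (d := d) (t := t') (t' := t1) (by omega) (by omega) (by omega)
      obtain rfl : t' = t1 := by omega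
      exact ⟨⟨g, h9, (Z_ins (.inr rfl)).1 h12⟩, fun h => by rw [c1 _ _ h] at h10; omega⟩
  push Not at hU
  have h1 := hU s0 t0 b1
  have h2 := hU s0 (t0 + 1)
  rcases lt_trichotomy (a 0) (s0 * d + t0) with h | h | h
  · exact conc_cone 0 fun F _ ⟨s, t, g, _, _, h3, h4, _⟩ => by omega
  · convert concP (a := a) (s := s0) t0 using 2 with F
    refine ⟨fun ⟨s', t', g, h8, h9, h10, h11, h12⟩ => ?_, fun ⟨⟨g, h8, h9⟩, h10, h11⟩ =>
      ⟨s0, t0, g, b1, h8, by rw [c0 _ _ h10]; omega, by rw [c0 _ _ h11]; omega, h9⟩⟩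
    obtain rfl : s' = s0 := uq (d := d) (t := t') (t' := t0) (by omega) (by omega) (by omega)
    obtain rfl : t' = t0 := by omega
    exact ⟨⟨g, h9, h12⟩, fun h => by rw [c1 _ _ h] at h10; omega,
      fun h => by rw [c1 _ _ h] at h11; omega⟩
  refine conc_ld hD 0 1 (fun F _ h3 ⟨s, t, g, h4, _, h6, h7, h8⟩ => ⟨s0, t0 + 1, ∅, by omega,
    .inl ⟨by omega, rfl⟩, by rw [c0 _ _ (by simpa)]; omega, by rw [ch_ins, if_pos rfl]; omega,
    (Z_ins (.inr rfl)).2 (h8.mono (not_lt.1 fun h => by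
      have := mono d h
      omega))⟩) (by simp) ?_
  convert concP (a := a) (s := s0) t0 using 2 with F
  refine ⟨fun ⟨⟨s', t', g, h8, h9, h10, h11, h12⟩, h13⟩ => ?_, fun ⟨⟨g, h8, h9⟩, h10, h11⟩ =>
    ⟨⟨s0, t0, g, b1, h8, by rw [ch_ins, if_pos rfl]; omega, by rw [c0 _ _ (by simpa)]; omega,
      (Z_ins (.inl rfl)).2 h9⟩, h10⟩⟩
  rw [ch_ins, if_pos rfl] at h10
  rw [ch_ins, if_neg (by simp)] at h11
  obtain rfl : s' = s0 := uq (d := d) (t := t') (t' := t0) (by omega) (by omega) (by omega)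
  obtain rfl : t' = t0 := by omega
  exact ⟨⟨g, h9, (Z_ins (.inl rfl)).1 h12⟩, h13, fun h => by rw [c1 _ _ h] at h11; omega⟩

end Pool.Agent.CharDep
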