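import Pool.Agent.H.MP_8a71fe_al.C

set_option autoImplicit false

namespace Pool.Agent.CharDep

open Finset MvPolynomial Pool.Agent.HShift

def RP (F : Finset (Fin 8)) : Prop := ∃ g ∈ mm :: J1, F ⊆ ZZ \ g

instance : DecidablePred RP := fun _ => List.decidableBEx _ _

def pr (i j : Fin 8) : (Finset (Fin 8) → ℚ) →ₗ[ℚ] ℚ := LinearMap.proj {i, j}

def psi : (Finset (Fin 8) → ℚ) →ₗ[ℚ] ℚ := (pr 2 3 - pr 2 5 - pr 3 6 + pr 5 7 + pr 6 7) ∘ₗ bdL

lemma psi_tri : ∀ g ∈ mm :: J1, #(ZZ \ g) = 3 ∧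
    psi (fun F => if ZZ \ g = F then 1 else 0) = if ZZ \ g = ZZ \ mm then 2 else 0 := by
  decide +kernel

lemma RP.card {F : Finset (Fin 8)} (h : RP F) : #F ≤ 3 :=
  let ⟨g, h1, h2⟩ := h
  (card_le_card h2).trans (psi_tri g h1).1.le

lemma cyc0 (c : Finset (Fin 8) → ℚ) (h : Supp RP 3 c) (h0 : bd c = 0) : c = 0 := by
  have e : ∀ F, c F ≠ 0 → ∃ g ∈ mm :: J1, ZZ \ g = F := fun F hF =>
    let ⟨⟨g, h1, h2⟩, h3⟩ := h F hF
    ⟨g, h1, (eq_of_subset_of_card_le h2 ((psi_tri g h1).1.trans h3.symm).le).symm⟩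
  have h1 : psi c = 0 := by
    rw [psi, LinearMap.comp_apply, show bdL c = 0 from h0, map_zero]
  rw [LinearMap.pi_apply_eq_sum_univ, sum_eq_single (ZZ \ mm) (fun F _ hF => by
    by_cases h2 : c F = 0
    · rw [h2, zero_smul]
    · obtain ⟨g, h3, rfl⟩ := e F h2
      rw [(psi_tri g h3).2, if_neg hF, smul_zero]) (by simp), (psi_tri mm (by simp)).2] at h1
  obtain ⟨w, h2, h3⟩ := van_of (K := ℚ) _ _ _ (chk ZZ (by simp) 3 (by decide) (by decide)) c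
    (fun F hF => ⟨by
      obtain ⟨g, h3, rfl⟩ := e F hF
      rcases List.mem_cons.1 h3 with rfl | h4
      · simp_all
      · exact ⟨_, List.mem_map_of_mem (List.mem_filter.2 ⟨h4, decide_eq_true (sub_Z g h3).1⟩),
          subset_rfl⟩, (h F hF).2⟩) h0
  rw [← h3, show w = 0 from funext fun F => by_contra fun h4 => ?_, bd_zero]
  obtain ⟨⟨G, h5, h6⟩, h7⟩ := h2 F h4
  obtain ⟨g, h8, rfl⟩ := List.mem_map.1 h5
  have := RP.card ⟨g, List.mem_cons_of_mem _ (List.mem_filter.1 h8).1, h6⟩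
  omega

lemma not_van {K : Type} [Field K] {Δ : Finset (Fin 8) → Prop} {i : ℕ} (u : Finset (Fin 8) → K)
    (h : Supp Δ i u) (h0 : bd u = 0) (F : Finset (Fin 8)) (h1 : u F ≠ 0)
    (h2 : ∀ j ∉ F, ¬ Δ (insert j F)) : ¬ Van K Δ i := fun hv => by
  obtain ⟨w, h3, rfl⟩ := hv u h h0
  obtain ⟨j, hj, h4⟩ := exists_ne_zero_of_sum_ne_zero h1
  exact h2 j (mem_compl.1 hj) (h3 _ (right_ne_zero_of_mul h4)).1

lemma rp2 : ¬ Van (ZMod 2) RP 3 :=
  not_van (fun F => if RP F ∧ #F = 3 then 1 else 0) (fun _ h => (ite_ne_right_iff.1 h).1)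
    (funext (by decide +kernel)) {2, 3, 5} (by decide) (by decide)

noncomputable def pt (p q : ℕ) : Fin 8 →₀ ℕ := Finsupp.single 0 p + Finsupp.single 1 q + ee ZZ

lemma pt0 (p q : ℕ) : pt p q 0 = p := by simp [pt, ee_apply, mem_ZZ]

lemma pt1 (p q : ℕ) : pt p q 1 = q := by simp [pt, ee_apply, mem_ZZ]

lemma ptZ (p q : ℕ) {j : Fin 8} (h : j ∈ ZZ) : pt p q j = 1 := by
  simp [pt, ee_apply, h, (mem_ZZ j).1 h]

lemma Z_mm {a e : Fin 8 → ℕ} : Z a e 1 ∅ ↔ Z a e 0 mm := by simp [Z]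

lemma Z_pt {p q : ℕ} {g F : Finset (Fin 8)} : Z (pt p q) (ch F) 0 g ↔ F ∩ ZZ ⊆ ZZ \ g :=
  forall_congr' fun j => by
    by_cases h : j ∈ ZZ <;> by_cases h1 : j ∈ g <;> by_cases h2 : j ∈ F <;> simp [ptZ, ch, *]

lemma dl_rp {d l : ℕ} (h : d % 2 = 1) (hl : d ≤ 2 * l) :
    Dl (Sm (BB d) l) (pt d ((d + 1) * l - d)) = RP := by
  have h0 : 2 * l ≤ (d + 1) * l := Nat.mul_le_mul_right l (by omega)
  rw [dl_eq (by omega)]
  ext F
  simp only [Q, pt0, pt1]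
  constructor
  · rintro ⟨s, t, g, -, h2, h3, h4, h5⟩
    have h6 : F ∩ ZZ = F := inter_eq_left.2 fun j hj => (mem_ZZ j).2
      ⟨fun h => by rw [← h, ch, if_pos hj] at h3; omega,
        fun h => by rw [← h, ch, if_pos hj] at h4; omega⟩
    rcases s with _ | s
    · exact ⟨g, List.mem_cons_of_mem _ (h2.resolve_left (by omega)).2, h6 ▸ Z_pt.1 h5⟩
    · exact ⟨mm, List.mem_cons_self, h6 ▸ Z_pt.1 (Z_mm.1 (h5.mono (by omega)))⟩
  · rintro ⟨g, h1, h2⟩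
    have h3 : ∀ j ∉ ZZ, ch F j = 0 := fun j hj => if_neg fun h => hj (mem_sdiff.1 (h2 h)).1
    rw [h3 0 (by decide), h3 1 (by decide)]
    have h4 := Z_pt (p := d) (q := (d + 1) * l - d).2 (inter_subset_left.trans h2)
    rcases List.mem_cons.1 h1 with rfl | h1
    · exact ⟨1, 0, ∅, by omega, .inl ⟨rfl, rfl⟩, by omega, by omega, Z_mm.2 h4⟩
    · exact ⟨0, d, g, by omega, .inr ⟨h, h1⟩, by omega, by omega, h4⟩

lemma BB_fin (d : ℕ) : (BB d).Finite :=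
  (Set.toFinite _).union ((List.finite_toSet J1).image _)

end Pool.Agent.CharDep
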